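import Pool.Agent.Helper36.VC.Asm

set_option autoImplicit false

open Cardinal Ordinal Set Filter

universe u

namespace Pool.Agent.Helper36.VC

open Pool.Agent.Helper65.GS

/-- the first theorem: `t > κ` -/
def StMainA : Prop := ∀ {X : Type u} (κ : Cardinal.{u}) (_ : κ.IsRegular) (_ : ℵ₀ < κ)
    (_ : #X = κ) (W : Filter X) (_ : CardinalInterFilter W κ) (_ : ∀ x, {x}ᶜ ∈ W)
    (_ : Saturated W) (A : Set X) (_ : Pos W A) (t l : Ordinal.{u})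
    (_ : Forces W A t l) (_ : κ.ord < t) (_ : t < l) (_ : IsCard l)
    (h : Ordinal.{u} → Ordinal.{u}) (_ : ∀ e < κ.ord, h e < κ.ord),
    ∃ a < κ.ord, WInacc a ∧ (∀ e < a, h e < a) ∧ ∃ s < t, ¬ CovLT s a t

theorem mainA (hWI : StWI.{u}) (hCAR : StCAR.{u}) (hCOA : StCOA.{u}) (hCTA : StCTA.{u}) :
    StMainA.{u} := by
  intro X κ hreg hunc hX W hW hnon hsat A hA t l hf ht htl hl h hh
  obtain ⟨f, hf⟩ := hf
  exact partA hWI hCAR hCOA hCTA κ W A t l f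
    ⟨hreg, hunc, hX, hW, hsat, hA, hf, hnon, ht.le, ht.trans htl⟩ ht htl hl h hh

/-- the second theorem: `t = κ` -/
def StMainB : Prop := ∀ {X : Type u} (κ : Cardinal.{u}) (_ : κ.IsRegular) (_ : ℵ₀ < κ)
    (_ : #X = κ) (W : Filter X) (_ : CardinalInterFilter W κ) (_ : ∀ x, {x}ᶜ ∈ W)
    (_ : Saturated W) (A : Set X) (_ : Pos W A) (l : Ordinal.{u})
    (_ : Forces W A κ.ord l) (_ : κ.ord < l) (_ : IsCard l),
    (∀ h : Ordinal.{u} → Ordinal.{u}, (∀ e < κ.ord, h e < κ.ord) →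
      ∃ a < κ.ord, WInacc a ∧ (∀ e < a, h e < a) ∧ ¬ FunCov a κ.ord) ∧
    (2 : Cardinal.{u}) ^ ℵ₀ ≠ κ

theorem mainB (hWI : StWI.{u}) (hNEK : StNEK.{u}) (hCOB : StCOB.{u}) (hCTB : StCTB.{u})
    (hPRI : StPRI.{u}) (hFC : StFC.{u}) : StMainB.{u} := by
  intro X κ hreg hunc hX W hW hnon hsat A hA l hf hkl hl
  obtain ⟨f, hf⟩ := hf
  have hS : Sit κ W A κ.ord l f :=
    ⟨hreg, hunc, hX, hW, hsat, hA, hf, hnon, le_rfl, hkl⟩
  exact ⟨fun h hh => partB hWI hNEK hCOB hCTB κ W A l f hS hl h hh,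
    partB2 hWI hNEK hCOB hCTB hPRI hFC κ W A l f hS hl⟩

end Pool.Agent.Helper36.VC
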