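import Pool.Agent.Helper36.VC.St

/-!
# Project VC: the two theorems from the modules
-/

set_option autoImplicit false

open Cardinal Ordinal Set Filter

universe u

namespace Pool.Agent.Helper36.VC

open Pool.Agent.Helper65.GS

theorem partA (hWI : StWI.{u}) (hCAR : StCAR.{u}) (hCOA : StCOA.{u}) (hCTA : StCTA.{u})
    {X : Type u} (κ : Cardinal.{u}) (W : Filter X) (A : Set X)
    (t l : Ordinal.{u}) (f : Ordinal.{u} → X → Ordinal.{u}) (hS : Sit κ W A t l f)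
    (ht : κ.ord < t) (htl : t < l) (hl : IsCard l)
    (h : Ordinal.{u} → Ordinal.{u}) (hh : ∀ e < κ.ord, h e < κ.ord) :
    ∃ a < κ.ord, WInacc a ∧ (∀ e < a, h e < a) ∧ ∃ s < t, ¬ CovLT s a t := by
  by_contra hcon
  have hcov : ∀ a < κ.ord, WInacc a → (∀ e < a, h e < a) → ∀ s < t, CovLT s a t := by
    intro a ha h1 h2 s hs
    by_contra h3
    exact hcon ⟨a, ha, h1, h2, s, hs, h3⟩
  have hae := hWI κ W A t l f hS h hh
  have hbd := hS.rep.bd t htl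
  have hA1 : Pos W {x ∈ A | (f κ.ord x < κ.ord ∧ WInacc (f κ.ord x) ∧
      ∀ e < f κ.ord x, h e < f κ.ord x) ∧ f t x < t} :=
    hS.pos.ae ((hae.and hbd).mono fun x hx hxA => ⟨hx.1 hxA, hx.2 hxA⟩)
  set A1 := {x ∈ A | (f κ.ord x < κ.ord ∧ WInacc (f κ.ord x) ∧
      ∀ e < f κ.ord x, h e < f κ.ord x) ∧ f t x < t} with hA1def
  have hA1A : A1 ⊆ A := fun x hx => hx.1
  have hex : ∀ x : X, ∃ c : Ordinal.{u}, ∃ C : Ordinal.{u} → Ordinal.{u} → Ordinal.{u},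
      x ∈ A1 → (c < t ∧ ∀ y : Ordinal.{u} → Ordinal.{u}, (∀ e < f κ.ord x, y e < f t x) →
      ∃ b < f κ.ord x, ∃ I : Ordinal.{u} → Ordinal.{u}, (∀ n < b, I n < c) ∧
        ∀ e < f κ.ord x, ∃ n < b, ∃ e' < f κ.ord x, y e = C (I n) e') := by
    intro x
    by_cases hx : x ∈ A1
    · obtain ⟨c, hc, C, hC⟩ := hcov _ hx.2.1.1 hx.2.1.2.1 hx.2.1.2.2 _ hx.2.2
      exact ⟨c, C, fun _ => ⟨hc, hC⟩⟩
    · exact ⟨0, fun _ _ => 0, fun h => absurd h hx⟩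
  choose c C hcC using hex
  obtain ⟨g0, hg0, hpos⟩ := hS.rep.onto A1 hA1A hA1 c (fun x hx => (hcC x hx).1)
  have hsub : {x ∈ A1 | c x = f g0 x} ⊆ A := fun x hx => hA1A hx.1
  have hS2 := hS.mono hsub hpos
  have hd : ∀ i : Ordinal.{u}, ∃ d : Ordinal.{u} → Ordinal.{u}, ∀ b < l,
      Pos W {x ∈ {x ∈ A1 | c x = f g0 x} | ∃ e < f κ.ord x, f b x = C x (f i x) e} →
        ∃ e < κ.ord, d e = b := fun i =>
    hCAR κ W _ t l f hS2 _ (Subset.refl _) (fun x e => C x (f i x) e)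
  choose d hd using hd
  have hfin := hCOA κ W _ t l f hS2 htl g0 hg0 C d (by
    intro x hx y hy
    have h1 := (hcC x hx.1).2 y hy
    obtain ⟨b, hb, I, hI, hI2⟩ := h1
    refine ⟨b, hb, I, ?_, hI2⟩
    intro n hn
    have := hI n hn
    rw [hx.2] at this
    exact this) (fun i _ b hb hp => hd i b hb hp)
  exact hCTA κ W _ t l f hS2 ht hl g0 hg0 d hfin

theorem partB (hWI : StWI.{u}) (hNEK : StNEK.{u}) (hCOB : StCOB.{u}) (hCTB : StCTB.{u})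
    {X : Type u} (κ : Cardinal.{u}) (W : Filter X) (A : Set X)
    (l : Ordinal.{u}) (f : Ordinal.{u} → X → Ordinal.{u}) (hS : Sit κ W A κ.ord l f)
    (hl : IsCard l)
    (h : Ordinal.{u} → Ordinal.{u}) (hh : ∀ e < κ.ord, h e < κ.ord) :
    ∃ a < κ.ord, WInacc a ∧ (∀ e < a, h e < a) ∧ ¬ FunCov a κ.ord := by
  by_contra hcon
  have hcov : ∀ a < κ.ord, WInacc a → (∀ e < a, h e < a) → FunCov a κ.ord := by
    intro a ha h1 h2
    by_contra h3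
    exact hcon ⟨a, ha, h1, h2, h3⟩
  have hae := hWI κ W A κ.ord l f hS h hh
  have hA1 : Pos W {x ∈ A | (f κ.ord x < κ.ord ∧ WInacc (f κ.ord x) ∧
      ∀ e < f κ.ord x, h e < f κ.ord x)} := hS.pos.ae hae
  set A1 := {x ∈ A | (f κ.ord x < κ.ord ∧ WInacc (f κ.ord x) ∧
      ∀ e < f κ.ord x, h e < f κ.ord x)} with hA1def
  have hA1A : A1 ⊆ A := fun x hx => hx.1
  have hex : ∀ x : X, ∃ c : Ordinal.{u}, ∃ G : Ordinal.{u} → Ordinal.{u} → Ordinal.{u},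
      x ∈ A1 → (c < κ.ord ∧ ∀ y : Ordinal.{u} → Ordinal.{u}, (∀ e < f κ.ord x, y e < f κ.ord x) →
      ∃ b < f κ.ord x, ∃ I : Ordinal.{u} → Ordinal.{u}, (∀ n < b, I n < c) ∧
        ∀ e < f κ.ord x, ∃ n < b, y e = G (I n) e) := by
    intro x
    by_cases hx : x ∈ A1
    · obtain ⟨c, hc, G, hG⟩ := hNEK κ W A κ.ord l f hS _ hx.2.1 hx.2.2.1
        (hcov _ hx.2.1 hx.2.2.1 hx.2.2.2)
      exact ⟨c, G, fun _ => ⟨hc, hG⟩⟩
    · exact ⟨0, fun _ _ => 0, fun h => absurd h hx⟩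
  choose c G hcG using hex
  obtain ⟨g0, hg0, hpos⟩ := hS.rep.onto A1 hA1A hA1 c (fun x hx => (hcG x hx).1)
  have hsub : {x ∈ A1 | c x = f g0 x} ⊆ A := fun x hx => hA1A hx.1
  have hS2 := hS.mono hsub hpos
  have hX : #X = #κ.ord.ToType := by rw [hS.card, mk_toType, card_ord]
  obtain ⟨e⟩ := Cardinal.eq.1 hX
  have hk : ∀ h : Ordinal.{u} → Ordinal.{u}, (∀ e < κ.ord, h e < κ.ord) →
      ∀ᶠ x in W, x ∈ {x ∈ A1 | c x = f g0 x} → ∀ e < f κ.ord x, h e < f κ.ord x := by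
    intro h hh
    filter_upwards [hWI κ W _ κ.ord l f hS2 h hh] with x hx hxA
    exact (hx hxA).2.2
  obtain ⟨G', hG'⟩ := hCOB κ W _ l f hS2 hk (fun x => ((e x).toOrd : Ordinal.{u}))
    (fun x => (e x).toOrd.2)
    (fun x y hxy => e.injective (ToType.mk.symm.injective (Subtype.ext hxy)))
    (fun m hm => ⟨e.symm (ToType.mk ⟨m, hm⟩), by simp [ToType.toOrd]⟩) g0 hg0 G (by
      intro x hx y hy
      obtain ⟨b, hb, I, hI, hI2⟩ := (hcG x hx.1).2 y hy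
      refine ⟨b, hb, I, ?_, hI2⟩
      intro n hn
      have := hI n hn
      rw [hx.2] at this
      exact this)
  exact hCTB κ W _ l f hS2 hl _ g0 hg0 G' hG'

theorem partB2 (hWI : StWI.{u}) (hNEK : StNEK.{u}) (hCOB : StCOB.{u}) (hCTB : StCTB.{u})
    (hPRI : StPRI.{u}) (hFC : StFC.{u})
    {X : Type u} (κ : Cardinal.{u}) (W : Filter X) (A : Set X)
    (l : Ordinal.{u}) (f : Ordinal.{u} → X → Ordinal.{u}) (hS : Sit κ W A κ.ord l f)
    (hl : IsCard l) : (2 : Cardinal.{u}) ^ ℵ₀ ≠ κ := by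
  intro hc
  obtain ⟨a, ha, hwi, -, hn⟩ := partB hWI hNEK hCOB hCTB κ W A l f hS hl (fun _ => 0)
    (fun e he => (zero_le : 0 ≤ e).trans_lt he)
  apply hn
  apply hFC κ a hwi.1
  exact hPRI κ W hS.reg hS.unc hS.card hS.compl hS.sat hS.non
    (hS.pos.mono (subset_univ A)) hc a ha

end Pool.Agent.Helper36.VC
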