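import Pool.Agent.Helper65.GS.St

/-!
# Covering numbers and values of ordinals under generic ultrapowers: definitions
-/

set_option autoImplicit false

open Cardinal Ordinal Set Filter

universe u

namespace Pool.Agent.Helper36.VC

open Pool.Agent.Helper65.GS

/-- The ordinal `a` is a weakly inaccessible cardinal: uncountable, equal to its cofinality, and
a limit of cardinals. -/
def WInacc (a : Ordinal.{u}) : Prop :=
  ω < a ∧ a.cof.ord = a ∧ ∀ b < a, ∃ c, b < c ∧ c < a ∧ IsCard c

/-- Fewer than `t` subsets `C i = {C i e : e < a}` of `s` suffice to cover every set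
`{y e : e < a} ⊆ s` by fewer than `a` of them. -/
def CovLT (s a t : Ordinal.{u}) : Prop :=
  ∃ c < t, ∃ C : Ordinal.{u} → Ordinal.{u} → Ordinal.{u},
    ∀ y : Ordinal.{u} → Ordinal.{u}, (∀ e < a, y e < s) →
      ∃ b < a, ∃ I : Ordinal.{u} → Ordinal.{u}, (∀ n < b, I n < c) ∧
        ∀ e < a, ∃ n < b, ∃ e' < a, y e = C (I n) e'

/-- There are functions `G i`, `i < c`, such that for every `y : a → a` there are fewer than `a`
of them such that `y` agrees at every point with one of these. -/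
def FunCov (a c : Ordinal.{u}) : Prop :=
  ∃ G : Ordinal.{u} → Ordinal.{u} → Ordinal.{u},
    ∀ y : Ordinal.{u} → Ordinal.{u}, (∀ e < a, y e < a) →
      ∃ b < a, ∃ I : Ordinal.{u} → Ordinal.{u}, (∀ n < b, I n < c) ∧
        ∀ e < a, ∃ n < b, y e = G (I n) e

/-- The common situation: `X` has the regular uncountable cardinality `κ`, the filter `W` is
nonprincipal, `κ`-complete and saturated, the functions `f a` represent below the positive set
`A` the value `l` of the ordinal `t`, and `κ ≤ t`, `κ < l`. -/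
structure Sit {X : Type u} (κ : Cardinal.{u}) (W : Filter X) (A : Set X) (t l : Ordinal.{u})
    (f : Ordinal.{u} → X → Ordinal.{u}) : Prop where
  reg : κ.IsRegular
  unc : ℵ₀ < κ
  card : #X = κ
  compl : CardinalInterFilter W κ
  sat : Saturated W
  pos : Pos W A
  rep : Rep W A t l f
  non : ∀ x, {x}ᶜ ∈ W
  kt : κ.ord ≤ t
  kl : κ.ord < l

variable {X : Type u} {κ : Cardinal.{u}} {W : Filter X} {A B : Set X} {t l : Ordinal.{u}}
  {f : Ordinal.{u} → X → Ordinal.{u}}

/-- a smaller positive set -/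
theorem Sit.mono (h : Sit κ W A t l f) (hB : B ⊆ A) (hp : Pos W B) : Sit κ W B t l f :=
  ⟨h.reg, h.unc, h.card, h.compl, h.sat, hp, h.rep.mono hB, h.non, h.kt, h.kl⟩

/-- `κ`-completeness for families indexed by the ordinals below some `b < κ` -/
theorem Sit.all (h : Sit κ W A t l f) {b : Ordinal.{u}} (hb : b < κ.ord)
    {p : Ordinal.{u} → X → Prop} (hp : ∀ n < b, ∀ᶠ x in W, p n x) :
    ∀ᶠ x in W, ∀ n < b, p n x := by
  haveI := h.compl
  have hcard : #b.ToType < κ := by
    rw [mk_toType]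
    exact Cardinal.lt_ord.1 hb
  have h1 : ∀ᶠ x in W, ∀ i : b.ToType, p i.toOrd x :=
    (eventually_cardinal_forall hcard).2 fun i => hp _ i.toOrd.2
  filter_upwards [h1] with x hx n hn
  have := hx (ToType.mk ⟨n, hn⟩)
  simpa only [ToType.toOrd, OrderIso.symm_apply_apply] using this

/-- a positive set covered by fewer than `κ` sets meets one of them in a positive set -/
theorem Sit.cover (h : Sit κ W A t l f) (hp : Pos W B) {b : Ordinal.{u}} (hb : b < κ.ord)
    {p : Ordinal.{u} → X → Prop} (hc : ∀ x ∈ B, ∃ n < b, p n x) :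
    ∃ n < b, Pos W {x ∈ B | p n x} := by
  by_contra hcon
  push Not at hcon
  have h1 : ∀ n < b, ∀ᶠ x in W, ¬ (x ∈ B ∧ p n x) := by
    intro n hn
    have := not_pos.1 (hcon n hn)
    exact this
  have h2 := h.all hb h1
  apply hp
  filter_upwards [h2] with x hx hxB
  obtain ⟨n, hn, hn2⟩ := hc x hxB
  exact hx n hn ⟨hxB, hn2⟩

/-- a countable positive union -/
theorem Sit.cover_countable (h : Sit κ W A t l f) (hp : Pos W B) {S : Set Ordinal.{u}}
    (hS : S.Countable) {p : Ordinal.{u} → X → Prop} (hc : ∀ x ∈ B, ∃ n ∈ S, p n x) :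
    ∃ n ∈ S, Pos W {x ∈ B | p n x} := by
  by_contra hcon
  push Not at hcon
  haveI := h.compl
  haveI : CountableInterFilter W :=
    CardinalInterFilter.toCountableInterFilter W h.unc
  have h1 : ∀ n ∈ S, ∀ᶠ x in W, ¬ (x ∈ B ∧ p n x) := by
    intro n hn
    exact not_pos.1 (hcon n hn)
  have h2 : ∀ᶠ x in W, ∀ n ∈ S, ¬ (x ∈ B ∧ p n x) := (eventually_countable_ball hS).2 h1
  apply hp
  filter_upwards [h2] with x hx hxB
  obtain ⟨n, hn, hn2⟩ := hc x hxB
  exact hx n hn ⟨hxB, hn2⟩

/-- the functions with index below `κ` are constant -/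
theorem Sit.const (h : Sit κ W A t l f) : ∀ a < κ.ord, ∀ᶠ x in W, x ∈ A → f a x = a := by
  intro a
  induction a using WellFoundedLT.induction with
  | _ a ih =>
    intro ha
    have hal : a < l := ha.trans h.kl
    have hge : ∀ᶠ x in W, x ∈ A → a ≤ f a x := by
      have h1 : ∀ b < a, ∀ᶠ x in W, x ∈ A → b < f a x := by
        intro b hb
        filter_upwards [ih b hb (hb.trans ha), h.rep.inc b a hb hal] with x hx hx2 hxA
        have := hx2 hxA
        rwa [hx hxA] at this
      have h2 := h.all ha h1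
      filter_upwards [h2] with x hx hxA
      by_contra hc
      rw [not_le] at hc
      exact lt_irrefl _ (hx _ hc hxA)
    by_contra hcon
    have hpos : Pos W {x ∈ A | f a x ≠ a} := by
      intro hc
      apply hcon
      filter_upwards [hc] with x hx hxA
      by_contra hne
      exact hx ⟨hxA, hne⟩
    obtain ⟨c, hcl, hc⟩ := h.rep.onto {x ∈ A | f a x ≠ a} (fun x hx => hx.1) hpos (fun _ => a)
      (fun _ _ => ha.trans_le h.kt)
    rcases lt_or_ge c a with hlt | hle
    · have h3 := hc.ae (p := fun x => f c x = c)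
        ((ih c hlt (hlt.trans ha)).mono fun x hx hxB => hx hxB.1.1)
      obtain ⟨x, hx⟩ := h3.nonempty
      have h4 : a = f c x := hx.1.2
      rw [hx.2] at h4
      exact hlt.ne' h4
    · have h3 : ∀ᶠ x in W, x ∈ A → f a x ≤ f c x := by
        rcases hle.eq_or_lt with he | hlt
        · rw [he]
          exact Eventually.of_forall fun _ _ => le_rfl
        · exact (h.rep.inc a c hlt hcl).mono fun x hx hxA => (hx hxA).le
      have h4 := hc.ae (p := fun x => a ≤ f a x ∧ f a x ≤ f c x)
        ((hge.and h3).mono fun x hx hxB => ⟨hx.1 hxB.1.1, hx.2 hxB.1.1⟩)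
      obtain ⟨x, hx⟩ := h4.nonempty
      have h5 : a = f c x := hx.1.2
      apply hx.1.1.2
      apply le_antisymm
      · exact hx.2.2.trans h5.symm.le
      · exact hx.2.1

/-- a function below `f κ` on a positive set is constant on a positive subset -/
theorem Sit.loc (h : Sit κ W A t l f) (hB : B ⊆ A) (hp : Pos W B) {g : X → Ordinal.{u}}
    (hg : ∀ x ∈ B, g x < f κ.ord x) : ∃ a < κ.ord, Pos W {x ∈ B | g x = a} := by
  have h1 : Pos W {x ∈ B | f κ.ord x < t} :=
    hp.ae ((h.rep.bd _ h.kl).mono fun x hx hxB => hx (hB hxB))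
  obtain ⟨c, hcl, hc⟩ := h.rep.onto {x ∈ B | f κ.ord x < t} (fun x hx => hB hx.1) h1 g
    (fun x hx => (hg x hx.1).trans hx.2)
  have hck : c < κ.ord := by
    by_contra hge
    rw [not_lt] at hge
    have h3 : ∀ᶠ x in W, x ∈ A → f κ.ord x ≤ f c x := by
      rcases hge.eq_or_lt with he | hlt
      · rw [he]
        exact Eventually.of_forall fun _ _ => le_rfl
      · exact (h.rep.inc _ c hlt hcl).mono fun x hx hxA => (hx hxA).le
    obtain ⟨x, hx⟩ := (hc.ae (h3.mono fun x hx hxB => hx (hB hxB.1.1))).nonempty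
    have h4 : g x = f c x := hx.1.2
    have h5 := hg x hx.1.1.1
    rw [h4] at h5
    exact absurd hx.2 (not_le.2 h5)
  refine ⟨c, hck, ?_⟩
  have h6 := hc.ae (p := fun x => f c x = c)
    ((h.const c hck).mono fun x hx hxB => hx (hB hxB.1.1))
  exact h6.mono fun x hx => ⟨hx.1.1.1, hx.1.2.trans hx.2⟩

/-- `f κ` lies above every ordinal below `κ` -/
theorem Sit.lt_k (h : Sit κ W A t l f) {a : Ordinal.{u}} (ha : a < κ.ord) :
    ∀ᶠ x in W, x ∈ A → a < f κ.ord x := by
  filter_upwards [h.const a ha, h.rep.inc a _ ha h.kl] with x hx hx2 hxA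
  have := hx2 hxA
  rwa [hx hxA] at this

/-- `f κ` lies below `κ` -/
theorem Sit.k_lt (h : Sit κ W A t l f) : ∀ᶠ x in W, x ∈ A → f κ.ord x < κ.ord := by
  by_contra hcon
  have hpos : Pos W {x ∈ A | κ.ord ≤ f κ.ord x} := by
    intro hc
    apply hcon
    filter_upwards [hc] with x hx hxA
    by_contra hne
    exact hx ⟨hxA, not_lt.1 hne⟩
  have hX : #X = #κ.ord.ToType := by rw [h.card, mk_toType, card_ord]
  obtain ⟨e⟩ := Cardinal.eq.1 hX
  obtain ⟨a, ha, ha2⟩ := h.loc (g := fun x => ((e x).toOrd : Ordinal.{u})) (fun x hx => hx.1) hpos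
    (fun x hx => lt_of_lt_of_le (e x).toOrd.2 hx.2)
  obtain ⟨x, hx⟩ := ha2.nonempty
  apply ha2
  refine mem_of_superset (h.non x) ?_
  intro y hy hy2
  apply hy
  have h1 : ((e y).toOrd : Ordinal.{u}) = (e x).toOrd := hy2.2.trans hx.2.symm
  exact e.injective (ToType.mk.symm.injective (Subtype.ext h1))

/-- the countable set of the local values of a function below `f κ` -/
theorem Sit.vals (h : Sit κ W A t l f) (hB : B ⊆ A) {g : X → Ordinal.{u}}
    (hg : ∀ x ∈ B, g x < f κ.ord x) :
    {a | a < κ.ord ∧ Pos W {x ∈ B | g x = a}}.Countable ∧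
      ∀ᶠ x in W, x ∈ B → g x ∈ {a | a < κ.ord ∧ Pos W {x ∈ B | g x = a}} := by
  constructor
  · have h1 := countable_of_ae_ne (W := W) (B := B) h.sat (Iio κ.ord) (fun a _ => a)
      (fun a _ b _ hab => Eventually.of_forall fun _ _ => hab) g
    refine h1.mono ?_
    rintro a ⟨ha, hp⟩
    exact ⟨ha, hp.mono fun x hx => ⟨hx.1, hx.2.symm⟩⟩
  · by_contra hcon
    have hpos : Pos W {x ∈ B | ¬ (g x ∈ {a | a < κ.ord ∧ Pos W {x ∈ B | g x = a}})} := by
      intro hc
      apply hcon
      filter_upwards [hc] with x hx hxA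
      by_contra hne
      exact hx ⟨hxA, hne⟩
    obtain ⟨a, ha, ha2⟩ := h.loc (fun x hx => hB hx.1) hpos (fun x hx => hg x hx.1)
    obtain ⟨x, hx⟩ := ha2.nonempty
    apply hx.1.2
    rw [hx.2]
    exact ⟨ha, ha2.mono fun y hy => ⟨hy.1.1, hy.2⟩⟩

end Pool.Agent.Helper36.VC
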