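import Pool.Agent.Helper36.VC.St

set_option autoImplicit false

open Cardinal Ordinal Set Filter

universe u

namespace Pool.Agent.Helper36.VC

open Pool.Agent.Helper65.GS

theorem pCOB : StCOB.{u} := by
  classical
  intro X κ W A l f h hk ex hexl hexi hexs g0 hg0 G H1
  have hk0 : (0 : Ordinal.{u}) < κ.ord := by
    rw [Cardinal.lt_ord, Ordinal.card_zero]
    exact lt_of_lt_of_le Cardinal.aleph0_pos h.unc.le
  -- the local values
  set V : Ordinal.{u} → Ordinal.{u} → Set Ordinal.{u} := fun i m =>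
    {v | v ∈ (univ : Set Ordinal.{u}) ∧ Pos W {x ∈ A | v = G x (f i x) m}} with hV
  have hVc : ∀ i m, (V i m).Countable := fun i m =>
    countable_of_ae_ne (W := W) (B := A) h.sat univ (fun v _ => v)
      (fun a _ b _ hab => Eventually.of_forall fun _ _ => hab) (fun x => G x (f i x) m)
  have hen : ∀ i m, ∃ F : ℕ → Ordinal.{u}, ∀ v ∈ V i m, ∃ j, F j = v := by
    intro i m
    rcases (V i m).eq_empty_or_nonempty with he | hne
    · refine ⟨fun _ => 0, ?_⟩
      intro v hv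
      rw [he] at hv
      exact absurd hv (notMem_empty v)
    · obtain ⟨F, hF⟩ := (hVc i m).exists_eq_range hne
      refine ⟨F, ?_⟩
      intro v hv
      rw [hF] at hv
      exact hv
  choose F hF using hen
  refine ⟨fun i j m => F i m j, ?_⟩
  intro B hB hpB g hg
  set y : Ordinal.{u} → Ordinal.{u} := fun n => if hh : ∃ x ∈ B, ex x = n then g hh.choose else 0
    with hy
  have hyt : ∀ n, y n < κ.ord := by
    intro n
    by_cases hh : ∃ x ∈ B, ex x = n
    · rw [hy]; simp only [dif_pos hh]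
      exact hg _ hh.choose_spec.1
    · rw [hy]; simp only [dif_neg hh]; exact hk0
  have hyg : ∀ x ∈ B, y (ex x) = g x := by
    intro x hx
    have hh : ∃ x' ∈ B, ex x' = ex x := ⟨x, hx, rfl⟩
    rw [hy]; simp only [dif_pos hh]
    rw [hexi hh.choose_spec.2]
  have s2 := hk y (fun e _ => hyt e)
  set A1 : Set X := {x ∈ A | ∀ n < f κ.ord x, y n < f κ.ord x} with hA1
  have hA1p : Pos W A1 := h.pos.ae s2
  have hch : ∀ x, ∃ (b : Ordinal.{u}) (I : Ordinal.{u} → Ordinal.{u}), x ∈ A1 → b < f κ.ord x ∧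
      (∀ n < b, I n < f g0 x) ∧
      ∀ e < f κ.ord x, ∃ n < b, y e = G x (I n) e := by
    intro x
    by_cases hx : x ∈ A1
    · obtain ⟨b, hb, I, hI, hI2⟩ := H1 x hx.1 y hx.2
      exact ⟨b, I, fun _ => ⟨hb, hI, hI2⟩⟩
    · exact ⟨0, fun _ => 0, fun hx' => absurd hx' hx⟩
  choose bb II hbI using hch
  obtain ⟨b, hbk, hB1p⟩ := h.loc (fun x hx => hx.1) hA1p (g := bb) (fun x hx => (hbI x hx).1)
  set B1 : Set X := {x ∈ A1 | bb x = b} with hB1
  have hB1A : B1 ⊆ A := fun x hx => hx.1.1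
  set S : Ordinal.{u} → Set Ordinal.{u} := fun n =>
    {i | i ∈ Iio g0 ∧ Pos W {x ∈ B1 | f i x = II x n}} with hS
  have hSc : ∀ n, (S n).Countable := by
    intro n
    refine countable_of_ae_ne (W := W) (B := B1) h.sat (Iio g0) f ?_ (fun x => II x n)
    intro a ha b' hb' hab
    rcases lt_or_gt_of_ne hab with h1 | h1
    · filter_upwards [h.rep.inc a b' h1 (lt_trans hb' hg0)] with x hx hxB
      exact (hx (hB1A hxB)).ne
    · filter_upwards [h.rep.inc b' a h1 (lt_trans ha hg0)] with x hx hxB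
      exact (hx (hB1A hxB)).ne'
  have claim : ∀ m < κ.ord, ∃ n < b, ∃ i ∈ S n, ∃ j, F i m j = y m := by
    intro m hm
    have hp1 : Pos W {x ∈ B1 | m < f κ.ord x} :=
      hB1p.ae ((h.lt_k hm).mono fun x hx hxB => hx (hB1A hxB))
    obtain ⟨n, hn, hp2⟩ := h.cover hp1 hbk
      (p := fun n x => y m = G x (II x n) m) (by
        intro x hx
        obtain ⟨n, hn, he⟩ := (hbI x hx.1.1).2.2 m hx.2
        have hbx : bb x = b := hx.1.2
        rw [hbx] at hn
        exact ⟨n, hn, he⟩)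
    have hp3 := hp2.ae (p := fun x => f g0 x < κ.ord)
      ((h.rep.bd g0 hg0).mono fun x hx hxB => hx (hB1A hxB.1.1))
    have hlt : ∀ x ∈ B1, II x n < f g0 x := by
      intro x hx
      refine (hbI x hx.1).2.1 n ?_
      have hbx : bb x = b := hx.2
      rw [hbx]; exact hn
    obtain ⟨i, hil, hp4⟩ := h.rep.onto _ (fun x hx => hB1A hx.1.1.1) hp3 (fun x => II x n)
      (fun x hx => (hlt x hx.1.1.1).trans hx.2)
    have hig : i < g0 := by
      refine h.rep.lt_of_lt (B := _) (fun x hx => hB1A hx.1.1.1.1) hp4 hil ?_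
      intro x hx
      have h5 : II x n = f i x := hx.2
      rw [← h5]
      exact hlt x hx.1.1.1.1
    have hiS : i ∈ S n := ⟨hig, hp4.mono fun x hx => ⟨hx.1.1.1.1, hx.2.symm⟩⟩
    have hmem : y m ∈ V i m := by
      refine ⟨mem_univ _, hp4.mono fun x hx => ⟨hB1A hx.1.1.1.1, ?_⟩⟩
      have h5 : II x n = f i x := hx.2
      have h6 : y m = G x (II x n) m := hx.1.1.2
      rw [← h5]
      exact h6
    obtain ⟨j, hj⟩ := hF i m _ hmem
    exact ⟨n, hn, i, hiS, j, hj⟩
  obtain ⟨n, hn, hp5⟩ := h.cover hpB hbk (p := fun n x => ∃ i ∈ S n, ∃ j, g x = F i (ex x) j) (by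
    intro x hx
    obtain ⟨n, hn, i, hi, j, hj⟩ := claim (ex x) (hexl x)
    rw [hyg x hx] at hj
    exact ⟨n, hn, i, hi, j, hj.symm⟩)
  obtain ⟨i, hi, hp6⟩ := h.cover_countable hp5 (hSc n) (p := fun i x => ∃ j, g x = F i (ex x) j)
    (fun x hx => hx.2)
  obtain ⟨j, hj, hp7⟩ := h.cover_countable hp6
    (S := range fun j : ℕ => (j : Ordinal.{u})) (countable_range _)
    (p := fun q x => ∃ j : ℕ, q = j ∧ g x = F i (ex x) j)
    (fun x hx => by
      obtain ⟨j, hj⟩ := hx.2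
      exact ⟨j, ⟨j, rfl⟩, j, rfl, hj⟩)
  obtain ⟨j, rfl⟩ := hj
  refine ⟨i, hi.1, j, hp7.mono fun x hx => ⟨hx.1.1.1, ?_⟩⟩
  obtain ⟨j', hj', he⟩ := hx.2
  have hjj : j = j' := Nat.cast_injective (R := Ordinal.{u}) hj'
  rw [hjj]
  exact he

end Pool.Agent.Helper36.VC
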