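import Pool.Agent.Helper36.VC.Defs

/-!
# Statements of the modules of project VC

Every `St..` is a proposition with a complete proof in its docstring. Always `k x = f κ.ord x`.
Tools in `Defs.lean`: `Sit.mono`, `Sit.all`, `Sit.cover`, `Sit.cover_countable`, `Sit.const`,
`Sit.loc`, `Sit.lt_k`, `Sit.k_lt`, `Sit.vals`; in `Helper65/GS/Bas.lean`: `not_pos`, `Pos.ae`,
`Pos.mono`, `Pos.nonempty`, `countable_of_ae_ne`, `Rep.lt_of_lt`, `Rep.le_of_le`, `Rep.val`.
-/

set_option autoImplicit false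

open Cardinal Ordinal Set Filter

universe u

namespace Pool.Agent.Helper36.VC

open Pool.Agent.Helper65.GS

/-- MODULE BND. PROOF. By `Sit.vals` the values of `g` lie almost everywhere on `B` in a countable
set of ordinals below `κ.ord`; `κ` is regular and uncountable, so this set is bounded by some
`d < κ.ord` (take `d` = successor of the supremum). -/
def StBND : Prop := ∀ {X : Type u} (κ : Cardinal.{u}) (W : Filter X) (A : Set X)
    (t l : Ordinal.{u}) (f : Ordinal.{u} → X → Ordinal.{u}), Sit κ W A t l f →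
    ∀ B ⊆ A, ∀ g : X → Ordinal.{u}, (∀ x ∈ B, g x < f κ.ord x) →
    ∃ d < κ.ord, ∀ᶠ x in W, x ∈ B → g x < d

/-- MODULE WI (theorem: StBND → StWI). PROOF. Let `k x = f κ.ord x`. `k x < κ.ord` a.e. on `A` is
`Sit.k_lt`, `ω < k x` is `Sit.lt_k`. (h) If the set `B` of the `x ∈ A` such that some `e < k x` has
`k x ≤ h e` is positive, choose such `e = e(x)`; by `Sit.loc` it is a constant `e < κ.ord` on a positive
subset, `h e < κ.ord`, so `h e < k x` a.e. by `Sit.lt_k`, contradiction. (cof) If the set `B` of the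
`x ∈ A` with `(k x).cof.ord ≠ k x` is positive then there `(k x).cof.ord < k x` (`cof.ord ≤` always), and
by `Sit.loc` it is a constant `b < κ.ord` on a positive `B' ⊆ B`. For `x ∈ B'` choose `g n x < k x`,
`n < b`, cofinal in `k x`. By StBND there are `d n < κ.ord` with `g n x < d n` a.e. on `B'`; let
`d < κ.ord` be an upper bound of the `d n` (`κ` regular). By `Sit.all`, a.e. on `B'` all
`g n x < d`, so `k x ≤ d`; but `d < k x` a.e. by `Sit.lt_k`: contradiction. (lim) Suppose that for the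
`x` in a positive set `B` there is `b = b(x) < k x` such that no cardinal `c` has `b < c < k x`; we can
also assume `(k x).cof.ord = k x` and `k x < κ.ord` on `B`, so `k x` is a cardinal. By `Sit.loc`, `b` is
constant on a positive `B'`. Let `c = (Order.succ b.card).ord`, a cardinal larger than `b`. As `k x` is a
cardinal larger than `b`, `c ≤ k x`, and `c < k x` is excluded. So `k x = c` on `B'`; then `c < κ.ord` and
`c < k x` a.e. by `Sit.lt_k`: contradiction. -/
def StWI : Prop := ∀ {X : Type u} (κ : Cardinal.{u}) (W : Filter X) (A : Set X)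
    (t l : Ordinal.{u}) (f : Ordinal.{u} → X → Ordinal.{u}), Sit κ W A t l f →
    ∀ h : Ordinal.{u} → Ordinal.{u}, (∀ e < κ.ord, h e < κ.ord) →
    ∀ᶠ x in W, x ∈ A → f κ.ord x < κ.ord ∧ WInacc (f κ.ord x) ∧
      ∀ e < f κ.ord x, h e < f κ.ord x

/-- MODULE CNT. PROOF. Cardinal arithmetic: `Iio l` is the union of the countable sets `S i j`,
`i < a`, `j < b`, so `#(Iio l) ≤ #(Iio a) * #(Iio b) * ℵ₀` (all lifted by `mk_Iio_ordinal`). See the end
of `Pool/Agent/Helper65/GS/Cmp.lean` for the universe handling. -/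
def StCNT : Prop := ∀ (l a b : Ordinal.{u}) (S : Ordinal.{u} → Ordinal.{u} → Set Ordinal.{u}),
    (∀ i < a, ∀ j < b, (S i j).Countable) → (∀ c < l, ∃ i < a, ∃ j < b, c ∈ S i j) →
    l.card ≤ max (max a.card b.card) ℵ₀

/-- MODULE ENU. PROOF. `D` is the union of `κ` countable sets, so has cardinality at most `κ` (lifted),
and there is a surjection from `Iio κ.ord` onto `D` if `D` is not empty. -/
def StENU : Prop := ∀ (κ : Cardinal.{u}) (D : Set Ordinal.{u}) (S : Ordinal.{u} → Set Ordinal.{u}),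
    ℵ₀ ≤ κ → (∀ e < κ.ord, (S e).Countable) → (∀ b ∈ D, ∃ e < κ.ord, b ∈ S e) →
    ∃ d : Ordinal.{u} → Ordinal.{u}, ∀ b ∈ D, ∃ e < κ.ord, d e = b

/-- MODULE CAR (theorem: StENU → StCAR). PROOF. Let `D` be the set of the `b < l` in question and
`b ∈ D`. For the `x` in the positive set choose `e(x) < f κ.ord x` with `f b x = E x (e(x))`; by `Sit.loc`
it is constant on a positive subset. So `b ∈ S e = {b < l | Pos W {x ∈ B | f b x = E x e}}` for some
`e < κ.ord`. `S e` is countable by `countable_of_ae_ne` (as in `Rep.countable_val`). Apply StENU. -/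
def StCAR : Prop := ∀ {X : Type u} (κ : Cardinal.{u}) (W : Filter X) (A : Set X)
    (t l : Ordinal.{u}) (f : Ordinal.{u} → X → Ordinal.{u}), Sit κ W A t l f →
    ∀ B ⊆ A, ∀ E : X → Ordinal.{u} → Ordinal.{u},
    ∃ d : Ordinal.{u} → Ordinal.{u}, ∀ b < l,
      Pos W {x ∈ B | ∃ e < f κ.ord x, f b x = E x e} → ∃ e < κ.ord, d e = b

/-- MODULE COA. A covering of all sets of size `κ`. PROOF. Let `e : X → Iio κ.ord` be a bijection and
let `y n = g (e⁻¹ n)` if `e⁻¹ n ∈ B'` and `y n = 0` otherwise (`n < κ.ord`), so `y n < t`. For `x ∈ A`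
let `Y_x n = f (y n) x`. For a.e. `x ∈ A`: `f (y n) x < f t x` for all `n < f κ.ord x` (otherwise choose
on a positive set a counterexample `n(x) < f κ.ord x`; it is constant on a positive subset by
`Sit.loc`, and this contradicts `Rep.inc` for `y n < t < l`). So on a positive subset `A1` of `A` (in
fact a.e.) the hypothesis gives `b(x) < f κ.ord x` and `I_x`; by `Sit.loc` `b(x) = b` is constant on a
positive `B1 ⊆ A1`, `b < κ.ord`. For `n < b` let `S n = {i < g0 | Pos W {x ∈ B1 | I_x n = f i x}}`. It is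
countable (`countable_of_ae_ne`). CLAIM: for every `m < κ.ord` there are `n < b`, `i ∈ S n` with
`Pos W {x ∈ B1 | ∃ e' < f κ.ord x, f (y m) x = C x (f i x) e'}`. Indeed `m < f κ.ord x` a.e. on `B1`
(`Sit.lt_k`), so there is `n(x) < b` with `f (y m) x = C x (I_x n(x)) e'` for some `e' < f κ.ord x`; by
`Sit.cover` `n(x) = n` on a positive subset `B2`; there `I_x n < f g0 x < t` (a.e., by `Rep.bd`), so by
`Rep.onto` some `i < l` has `I_x n = f i x` on a positive `B3 ⊆ B2`; as `f i x < f g0 x` there, `i < g0`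
(`Rep.lt_of_lt`); so `i ∈ S n`. By the hypothesis on `d`, `y m = d i ε` for some `ε < κ.ord`. So for every
`x ∈ B'` (take `m = e x`) there are `n < b`, `i ∈ S n` such that `g x = d i ε` for some `ε < κ.ord`. Apply
`Sit.cover` and then `Sit.cover_countable`. -/
def StCOA : Prop := ∀ {X : Type u} (κ : Cardinal.{u}) (W : Filter X) (A : Set X)
    (t l : Ordinal.{u}) (f : Ordinal.{u} → X → Ordinal.{u}), Sit κ W A t l f → t < l →
    ∀ g0 < l, ∀ (C : X → Ordinal.{u} → Ordinal.{u} → Ordinal.{u})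
      (d : Ordinal.{u} → Ordinal.{u} → Ordinal.{u}),
    (∀ x ∈ A, ∀ y : Ordinal.{u} → Ordinal.{u}, (∀ e < f κ.ord x, y e < f t x) →
      ∃ b < f κ.ord x, ∃ I : Ordinal.{u} → Ordinal.{u}, (∀ n < b, I n < f g0 x) ∧
        ∀ e < f κ.ord x, ∃ n < b, ∃ e' < f κ.ord x, y e = C x (I n) e') →
    (∀ i < g0, ∀ b < l, Pos W {x ∈ A | ∃ e < f κ.ord x, f b x = C x (f i x) e} →
      ∃ e < κ.ord, d i e = b) →
    ∀ B ⊆ A, Pos W B → ∀ g : X → Ordinal.{u}, (∀ x ∈ B, g x < t) →
    ∃ i < g0, Pos W {x ∈ B | ∃ e < κ.ord, g x = d i e}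

/-- MODULE CTA (theorem: StCNT → StCTA). PROOF. By `Rep.val` for `r = κ.ord < t` there is `c < l` such
that `B = {x ∈ A | f c x = κ.ord}` is positive. Let `b < l`. Then `{x ∈ B | f b x < t}` is positive, and
the hypothesis with `g = f b` gives `i < g0` and a positive `B1 ⊆ B` on which `f b x = d i (h x)` with
`h x < κ.ord < t`. By `Rep.onto`, `h x = f j x` on a positive `B2 ⊆ B1` for some `j < l`; there
`f j x < κ.ord = f c x`, so `j < c` by `Rep.lt_of_lt`. So `b ∈ S i j`, where
`S i j = {b < l | Pos W {x ∈ B | f b x = d i (f j x)}}`, countable by `countable_of_ae_ne`. By StCNT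
`l.card ≤ max (max g0.card c.card) ℵ₀`. But `l` is a cardinal, `g0, c < l` and `ω < κ.ord < l`, so all
three are less than `l.card`: contradiction. -/
def StCTA : Prop := ∀ {X : Type u} (κ : Cardinal.{u}) (W : Filter X) (A : Set X)
    (t l : Ordinal.{u}) (f : Ordinal.{u} → X → Ordinal.{u}), Sit κ W A t l f → κ.ord < t →
    IsCard l → ∀ g0 < l, ∀ d : Ordinal.{u} → Ordinal.{u} → Ordinal.{u},
    (∀ B ⊆ A, Pos W B → ∀ g : X → Ordinal.{u}, (∀ x ∈ B, g x < t) →
      ∃ i < g0, Pos W {x ∈ B | ∃ e < κ.ord, g x = d i e}) → False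

/-- MODULE NEK. A covering number is not `κ`. PROOF. Let `G` witness `FunCov a κ.ord`. Suppose that for
every `c < κ.ord` it does not witness `FunCov a c`. Let `e : X → Iio κ.ord` be a bijection. For every `x`
choose `y_x : a → a` which is not covered by fewer than `a` of the `G i`, `i < e x`: for all `b < a` and
all `I` with `I n < e x` (`n < b`) some `m < a` has `y_x m ≠ G (I n) m` for all `n < b`. For `m < a` let
`V m = {v < a | Pos W {x | y_x m = v}}`, a countable set (`countable_of_ae_ne` or directly `Saturated`)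
and `y_x m ∈ V m` for a.e. `x` (as `y_x m < a < κ.ord`, use `Sit.cover` for the bad set; here work on the
positive set `A`, i.e. with `Pos W {x ∈ A | y_x m = v}` and a.e. `x ∈ A`). `V m` is not empty; let
`v m j`, `j : ℕ`, enumerate it. By `Sit.all`, for a.e. `x ∈ A` all `m < a` have `y_x m = v m j` for some
`j`. For every `j` the function `m ↦ v m j` is covered: there are `b j < a` and `I j` with `I j n < κ.ord`
and for all `m < a` some `n < b j` with `v m j = G (I j n) m`. Let `b < a` with `b j ≤ b` for all `j`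
(`a` has uncountable cofinality) and `s < κ.ord` an upper bound of all `I j n`, `n < b j`, `j : ℕ`. Choose
`x ∈ A` outside the null sets with `e x > s` (the set of the `x` with `e x ≤ s` is null: it is covered by
`< κ` points). Let `I` list all `I j n`: `I (ω * n + j) = I j n` for `n < b`, `j < ω` (for `n ≥ b j` put
`0`), `b' = ω * b < a` (as `a` is an infinite cardinal, `ω < a`). Then `y_x` is covered by the `G (I n')`,
`n' < b'`, all `I n' < e x`: contradiction. -/
def StNEK : Prop := ∀ {X : Type u} (κ : Cardinal.{u}) (W : Filter X) (A : Set X)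
    (t l : Ordinal.{u}) (f : Ordinal.{u} → X → Ordinal.{u}), Sit κ W A t l f →
    ∀ a < κ.ord, WInacc a → FunCov a κ.ord → ∃ c < κ.ord, FunCov a c

/-- MODULE COB. Covering functions on `κ`. PROOF. For `i < g0` and `m` let
`V i m = {v | Pos W {x ∈ A | G x (f i x) m = v}}`, countable by `Saturated` (disjoint sets for different
`v`); let `G' i j m`, `j : ℕ`, enumerate it (`0` if empty). Given `B, g` let `e : X → Iio κ.ord` be the
bijection `ex`; let `h m = g (ex⁻¹ m)` if `ex⁻¹ m ∈ B`, and `h m = 0` otherwise; `h m < κ.ord` for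
`m < κ.ord`. By hypothesis (hk) for a.e. `x ∈ A` all `m < f κ.ord x` have `h m < f κ.ord x`. So for a.e.
`x ∈ A` there are `b(x) < f κ.ord x` and `I_x` as in the hypothesis for `y = h`; by `Sit.loc` `b(x) = b` on
a positive `B1 ⊆ A`. For `n < b` let `S n = {i < g0 | Pos W {x ∈ B1 | I_x n = f i x}}`, countable by
`countable_of_ae_ne`. CLAIM: for every `m < κ.ord` there are `n < b`, `i ∈ S n`, `j` with
`h m = G' i j m`: `m < f κ.ord x` a.e. on `B1`, so `h m = G x (I_x n(x)) m` with `n(x) < b`; `n(x) = n` on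
a positive subset (`Sit.cover`), `I_x n < f g0 x < κ.ord` there, so `I_x n = f i x` on a positive subset
by `Rep.onto`, `i < g0` by `Rep.lt_of_lt`, so `i ∈ S n`, and `h m ∈ V i m`. So every `x ∈ B` (with
`m = ex x`, `g x = h m`) has `n < b`, `i ∈ S n`, `j : ℕ` with `g x = G' i j (ex x)`. Apply `Sit.cover`,
`Sit.cover_countable`, and once more countable completeness for `j`. -/
def StCOB : Prop := ∀ {X : Type u} (κ : Cardinal.{u}) (W : Filter X) (A : Set X)
    (l : Ordinal.{u}) (f : Ordinal.{u} → X → Ordinal.{u}), Sit κ W A κ.ord l f →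
    (∀ h : Ordinal.{u} → Ordinal.{u}, (∀ e < κ.ord, h e < κ.ord) →
      ∀ᶠ x in W, x ∈ A → ∀ e < f κ.ord x, h e < f κ.ord x) →
    ∀ ex : X → Ordinal.{u}, (∀ x, ex x < κ.ord) → Function.Injective ex →
    (∀ m < κ.ord, ∃ x, ex x = m) →
    ∀ g0 < l, ∀ G : X → Ordinal.{u} → Ordinal.{u} → Ordinal.{u},
    (∀ x ∈ A, ∀ y : Ordinal.{u} → Ordinal.{u}, (∀ e < f κ.ord x, y e < f κ.ord x) →
      ∃ b < f κ.ord x, ∃ I : Ordinal.{u} → Ordinal.{u}, (∀ n < b, I n < f g0 x) ∧
        ∀ e < f κ.ord x, ∃ n < b, y e = G x (I n) e) →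
    ∃ G' : Ordinal.{u} → ℕ → Ordinal.{u} → Ordinal.{u},
      ∀ B ⊆ A, Pos W B → ∀ g : X → Ordinal.{u}, (∀ x ∈ B, g x < κ.ord) →
      ∃ i < g0, ∃ j : ℕ, Pos W {x ∈ B | g x = G' i j (ex x)}

/-- MODULE CTB (theorem: StCNT → StCTB). PROOF. Let `b < l`. The set `{x ∈ A | f b x < κ.ord}` is
positive (`Rep.bd`), so by the hypothesis with `g = f b` there are `i < g0` and `j : ℕ` with
`b ∈ {b < l | Pos W {x ∈ A | f b x = G' i j (ex x)}} =: S i j`, a countable set by `countable_of_ae_ne`.
By StCNT (with `b = ω`, the ordinals below `ω` are the naturals) `l.card ≤ max (max g0.card ℵ₀) ℵ₀`. But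
`l` is a cardinal, `g0 < l` and `ω < κ.ord < l`: contradiction. -/
def StCTB : Prop := ∀ {X : Type u} (κ : Cardinal.{u}) (W : Filter X) (A : Set X)
    (l : Ordinal.{u}) (f : Ordinal.{u} → X → Ordinal.{u}), Sit κ W A κ.ord l f →
    IsCard l → ∀ ex : X → Ordinal.{u}, ∀ g0 < l, ∀ G' : Ordinal.{u} → ℕ → Ordinal.{u} → Ordinal.{u},
    (∀ B ⊆ A, Pos W B → ∀ g : X → Ordinal.{u}, (∀ x ∈ B, g x < κ.ord) →
      ∃ i < g0, ∃ j : ℕ, Pos W {x ∈ B | g x = G' i j (ex x)}) → False

/-- MODULE PRI. If the continuum is `κ` then `2 ^ |a| ≤ κ` for all `a < κ`. PROOF. Let `a` be the least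
ordinal `< κ.ord` with `κ < #(a.ToType → Bool)`, i.e. `κ < 2 ^ a.card` (suppose it exists). `a` is not `0`
and not a successor (`2 ^ (card (succ c)) = 2 ^ card c * 2` or `card` unchanged), so `a` is a limit.
(cof ω) If `a.cof = ℵ₀`, let `a = sup a_n`, `a_n < a`; a function `a → Bool` is determined by its
restrictions to the `a_n`, so `2 ^ a.card ≤ ∏ 2 ^ (a_n).card ≤ κ ^ ℵ₀ = (2 ^ ℵ₀) ^ ℵ₀ = 2 ^ ℵ₀ = κ`,
contradiction. (cof > ω) Represent elements of `2 ^ a` as sets `x ⊆ Iio a`. For `c < a` let `K_c` be an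
injection of the subsets of `Iio c` into `Iio κ.ord` (exists, as `2 ^ c.card ≤ κ`). For `x ⊆ Iio a` the
ordinals `K_c (x ∩ Iio c)`, `c < a`, are bounded by some `r < κ.ord` (`κ` regular, `a < κ.ord`). There
are `κ` many `r` and more than `κ` many `x`, so some `r` has at least `κ` many `x`; let `x_p`, `p ∈ X`, be
distinct subsets of `Iio a` with `K_c (x_p ∩ Iio c) < r` for all `c < a` (`#X = κ`). For a.e. `p` and all
`c < a` the set `X_c(p) = {q | x_q ∩ Iio c = x_p ∩ Iio c}` is positive: for fixed `c` the `p` for which it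
is not positive form a union of at most `|r| < κ` null classes; `a < κ.ord` many `c`. Fix such a `p`
(`W` is proper). For `q ≠ p` let `Δ q < a` be the least `c` such that exactly one of `x_p`, `x_q` contains
`c`. The sets `{q | Δ q = c}` are disjoint, so only countably many of them are positive, and as
`a.cof > ℵ₀` there is `c0 < a` such that `{q | q ≠ p, Δ q = c}` is null for all `c` with `c0 ≤ c < a`. So
`{q | q ≠ p, c0 ≤ Δ q}` is null (`a < κ.ord` many null sets), and `X_{c0}(p) ⊆ {p} ∪` this set is null: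
contradiction. -/
def StPRI : Prop := ∀ {X : Type u} (κ : Cardinal.{u}) (W : Filter X), κ.IsRegular → ℵ₀ < κ →
    #X = κ → CardinalInterFilter W κ → Saturated W → (∀ x, {x}ᶜ ∈ W) → Pos W (univ : Set X) →
    (2 : Cardinal.{u}) ^ ℵ₀ = κ → ∀ a < κ.ord, (2 : Cardinal.{u}) ^ a.card ≤ κ

/-- MODULE FC. PROOF. The functions `Iio a → Iio a` form a set of cardinality at most
`a.card ^ a.card = 2 ^ a.card ≤ κ` (lifted), so there are `G i`, `i < κ.ord`, such that every `y` with
`y e < a` for `e < a` agrees on `Iio a` with some `G i`. In `FunCov` take `b = 1 < a`, `I 0 = i`. -/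
def StFC : Prop := ∀ (κ : Cardinal.{u}) (a : Ordinal.{u}), ω < a → (2 : Cardinal.{u}) ^ a.card ≤ κ →
    FunCov a κ.ord

end Pool.Agent.Helper36.VC
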